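import Pool.Agent.Helper99.EXC.GoalsS

/-! # EXC, packet SD: the square sum over the box of `φ (x - z) - Φ_k x` -/

open Finset

namespace Pool.Agent.Helper32.EXC

open Pool.Agent.Helper99.ERW Pool.Agent.Helper99.EXC

lemma nm_nonneg (x : Site 2) : 0 ≤ nm x := le_max_of_le_left (abs_nonneg _)

lemma mem_box_nm {n : ℕ} {x : Site 2} : x ∈ box 2 n ↔ nm x ≤ n := by
  rw [mem_box]
  unfold nm
  rw [max_le_iff, Fin.forall_fin_two]
  constructor
  · rintro ⟨h0, h1⟩
    exact ⟨by exact_mod_cast h0, by exact_mod_cast h1⟩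
  · rintro ⟨h0, h1⟩
    exact ⟨by exact_mod_cast h0, by exact_mod_cast h1⟩

lemma nm_sub_le (x y : Site 2) : nm (x - y) ≤ nm x + nm y := by
  unfold nm
  refine max_le ?_ ?_
  · have h : |(((x - y) 0 : ℤ) : ℝ)| ≤ |(x 0 : ℝ)| + |(y 0 : ℝ)| := by
      rw [Pi.sub_apply]; push_cast; exact abs_sub _ _
    exact h.trans (add_le_add (le_max_left _ _) (le_max_left _ _))
  · have h : |(((x - y) 1 : ℤ) : ℝ)| ≤ |(x 1 : ℝ)| + |(y 1 : ℝ)| := by
      rw [Pi.sub_apply]; push_cast; exact abs_sub _ _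
    exact h.trans (add_le_add (le_max_right _ _) (le_max_right _ _))

lemma card_box2 (n : ℕ) : (box 2 n).card = (2 * n + 1) ^ 2 := by
  unfold Pool.Agent.Helper99.ERW.box
  rw [Fintype.card_piFinset, Fin.prod_univ_two, Int.card_Icc, sq]
  have h : ((n : ℤ) + 1 - -(n : ℤ)).toNat = 2 * n + 1 := by omega
  rw [h]

lemma nm_ge_of_not_mem {m : ℕ} {w : Site 2} (h : w ∉ box 2 m) : (m : ℝ) + 1 ≤ nm w := by
  rw [mem_box] at h
  push Not at h
  obtain ⟨l, hl⟩ := h
  have h1 : (m : ℤ) + 1 ≤ |w l| := by omega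
  have h2 : (m : ℝ) + 1 ≤ |(w l : ℝ)| := by exact_mod_cast h1
  refine h2.trans ?_
  unfold nm
  have : l = 0 ∨ l = 1 := by omega
  rcases this with rfl | rfl
  · exact le_max_left _ _
  · exact le_max_right _ _

lemma sum_inv_box (m : ℕ) : ∑ w ∈ box 2 m, 1 / (1 + nm w) ≤ 8 * m + 1 := by
  induction m with
  | zero =>
    have h : ∀ w ∈ box 2 0, 1 / (1 + nm w) ≤ 1 := by
      intro w _
      rw [div_le_one (by linarith [nm_nonneg w])]
      linarith [nm_nonneg w]
    have h2 := Finset.sum_le_card_nsmul (box 2 0) (fun w => 1 / (1 + nm w)) 1 h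
    rw [card_box2] at h2
    simpa using h2
  | succ m ih =>
    have hsub : box 2 m ⊆ box 2 (m + 1) := by
      intro w hw
      rw [mem_box_nm] at hw ⊢
      push_cast
      linarith
    rw [← Finset.sum_sdiff hsub]
    have h : ∀ w ∈ box 2 (m + 1) \ box 2 m, 1 / (1 + nm w) ≤ 1 / ((m : ℝ) + 2) := by
      intro w hw
      rw [Finset.mem_sdiff] at hw
      have := nm_ge_of_not_mem hw.2
      exact one_div_le_one_div_of_le (by positivity) (by linarith)
    have h2 := Finset.sum_le_card_nsmul _ (fun w => 1 / (1 + nm w)) _ h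
    rw [Finset.card_sdiff_of_subset hsub, card_box2, card_box2] at h2
    have h3 : (2 * (m + 1) + 1) ^ 2 - (2 * m + 1) ^ 2 = 8 * m + 8 := by
      have : (2 * (m + 1) + 1) ^ 2 = (2 * m + 1) ^ 2 + (8 * m + 8) := by ring
      omega
    rw [h3, nsmul_eq_mul] at h2
    have h4 : ((8 * m + 8 : ℕ) : ℝ) * (1 / ((m : ℝ) + 2)) ≤ 8 := by
      rw [mul_one_div, div_le_iff₀ (by positivity)]
      push_cast
      nlinarith [(Nat.cast_nonneg m : (0 : ℝ) ≤ m)]
    push_cast at ih ⊢
    linarith

lemma log_sq_le {r : ℝ} (hr : 0 < r) : Real.log r ^ 2 ≤ 4 * r + 4 / r := by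
  have key : ∀ t : ℝ, 1 ≤ t → Real.log t ^ 2 ≤ 4 * t := by
    intro t ht
    have h0 : 0 ≤ Real.log t := Real.log_nonneg ht
    have hs : 0 < Real.sqrt t := Real.sqrt_pos.mpr (by linarith)
    have h1 : Real.log t = 2 * Real.log (Real.sqrt t) := by
      rw [Real.log_sqrt (by linarith)]; ring
    have h2 : Real.log (Real.sqrt t) ≤ Real.sqrt t := by
      have := Real.log_le_sub_one_of_pos hs
      linarith
    have h3 : Real.log t ≤ 2 * Real.sqrt t := by linarith
    calc Real.log t ^ 2 ≤ (2 * Real.sqrt t) ^ 2 := pow_le_pow_left₀ h0 h3 2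
      _ = 4 * t := by rw [mul_pow, Real.sq_sqrt (by linarith)]; ring
  rcases le_or_gt 1 r with h | h
  · have := key r h
    have h2 : 0 < 4 / r := by positivity
    linarith
  · have h1 : 1 ≤ 1 / r := by rw [le_div_iff₀ hr]; linarith
    have h2 := key (1 / r) h1
    rw [one_div, Real.log_inv] at h2
    have h3 : 4 * r⁻¹ = 4 / r := by rw [div_eq_mul_inv]
    nlinarith

lemma logb_sq_le {r : ℝ} (hr : 0 < r) : Real.logb 2 r ^ 2 ≤ (4 * r + 4 / r) * 4 := by
  unfold Real.logb
  rw [div_pow]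
  have h1 : (1 : ℝ) / 4 ≤ Real.log 2 ^ 2 := by
    have := Real.log_two_gt_d9
    nlinarith
  rw [div_le_iff₀ (by positivity)]
  have h2 := log_sq_le hr
  have h3 : 0 ≤ 4 * r + 4 / r := by positivity
  nlinarith

theorem SD (hFFP : FFP_stmt) (hSC : SC_stmt) : SD_stmt := by
  intro a φ κ C0 hK
  obtain ⟨b0, hb0⟩ := hSC a φ κ C0 hK
  refine ⟨b0 + 1, fun b hb => ?_⟩
  obtain ⟨C, k1, -, hO⟩ := hb0 b (by omega)
  have hb1 : (1 : ℝ) ≤ b := by exact_mod_cast (show 1 ≤ b by omega)
  have hκ := hK.kpos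
  have hC0 := hK.cone
  -- constants
  set U : ℝ := κ * Real.logb 2 (3 * b) + C0 with hU
  have hU0 : 1 ≤ U := by
    have : 0 ≤ Real.logb 2 (3 * b) := Real.logb_nonneg (by norm_num) (by linarith)
    have : 0 ≤ κ * Real.logb 2 (3 * b) := mul_nonneg hκ.le this
    linarith
  set D : ℝ := C0 + U + 1 with hD
  set E1 : ℝ := 32 * κ ^ 2 * (1 + 3 * b) + 2 * D ^ 2 with hE1
  set E2 : ℝ := 32 * κ ^ 2 with hE2
  have hE1' : 0 ≤ E1 := by positivity
  have hE2' : 0 ≤ E2 := by positivity
  refine ⟨C ^ 2 * (9 * b ^ 2) + E1 * (9 * b ^ 2) + E2 * (25 * b), k1, fun k hk x => ?_⟩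
  have h2k : (1 : ℝ) ≤ 2 ^ k := one_le_pow₀ (by norm_num)
  have h4k : (4 : ℝ) ^ k = 2 ^ k * 2 ^ k := by rw [← mul_pow]; norm_num
  have hcard : ((Bx b k).card : ℝ) ≤ 9 * b ^ 2 * 4 ^ k := by
    unfold Bx
    rw [card_box2]
    push_cast
    rw [h4k]
    have : (1 : ℝ) ≤ b * 2 ^ k := by nlinarith
    have h5 : 2 * ((b : ℝ) * 2 ^ k) + 1 ≤ 3 * (b * 2 ^ k) := by linarith
    calc (2 * ((b : ℝ) * 2 ^ k) + 1) ^ 2 ≤ (3 * (b * 2 ^ k)) ^ 2 :=
          pow_le_pow_left₀ (by positivity) h5 2
      _ = 9 * b ^ 2 * (2 ^ k * 2 ^ k) := by ring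
  have hpos1 : 0 ≤ C ^ 2 * (9 * (b : ℝ) ^ 2) := by positivity
  have hpos2 : 0 ≤ E1 * (9 * (b : ℝ) ^ 2) := by positivity
  have hpos3 : 0 ≤ E2 * (25 * (b : ℝ)) := by positivity
  have h4p : (0 : ℝ) < 4 ^ k := by positivity
  by_cases hx : x ∈ Bx b (k + 1)
  · -- inside
    have hnx : nm x ≤ 2 * (b * 2 ^ k) := by
      have := mem_box_nm.mp hx
      push_cast at this
      rw [pow_succ] at this
      linarith
    have hu : φ x - κ * k ≤ U := by
      have h1 := (abs_le.mp (hK.log x)).2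
      have h2 : Real.logb 2 (1 + nm x) ≤ Real.logb 2 (3 * b * 2 ^ k) := by
        apply Real.logb_le_logb_of_le (by norm_num) (by linarith [nm_nonneg x])
        have : (1 : ℝ) ≤ b * 2 ^ k := by nlinarith
        linarith
      have h3 : Real.logb 2 (3 * b * 2 ^ k) = Real.logb 2 (3 * b) + k := by
        rw [Real.logb_mul (by positivity) (by positivity), Real.logb_pow]
        rw [Real.logb_self_eq_one (by norm_num)]
        ring
      rw [h3] at h2
      have h4 := mul_le_mul_of_nonneg_left h2 hκ.le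
      rw [hU]
      nlinarith
    have hFF : |FF (φ x - κ * k)| ≤ U + 1 := by
      have hlow := hFFP.2.1 (φ x - κ * k)
      rw [abs_of_nonneg (by linarith)]
      rcases le_or_gt (φ x - κ * k) 0 with h | h
      · rw [hFFP.2.2.2.1 _ h]
        linarith
      · have := hFFP.2.2.2.2.1 (φ x - κ * k)
        rw [abs_of_pos h] at this
        linarith
    have hterm : ∀ z ∈ Bx b k, (φ (x - z) - Phi κ φ k x) ^ 2 ≤
        E1 + E2 * 2 ^ k * (1 / (1 + nm (x - z))) := by
      intro z hz
      have hnz : nm z ≤ b * 2 ^ k := by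
        have := mem_box_nm.mp hz
        push_cast at this
        exact this
      have hnw : nm (x - z) ≤ 3 * (b * 2 ^ k) := by linarith [nm_sub_le x z]
      set w := x - z with hw
      have hw0 := nm_nonneg w
      set r : ℝ := (1 + nm w) / 2 ^ k with hr
      have hrpos : 0 < r := by positivity
      have hr2 : r ≤ 1 + 3 * b := by
        rw [hr, div_le_iff₀ (by positivity)]
        nlinarith
      have hlog : Real.logb 2 (1 + nm w) = Real.logb 2 r + k := by
        have : 1 + nm w = r * 2 ^ k := by rw [hr]; field_simp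
        rw [this, Real.logb_mul hrpos.ne' (by positivity), Real.logb_pow,
          Real.logb_self_eq_one (by norm_num)]
        ring
      have h1 := hK.log w
      rw [hlog] at h1
      have h2 : |φ w - Phi κ φ k x - κ * Real.logb 2 r| ≤ D := by
        unfold Phi
        have e : φ w - (κ * ↑k + FF (φ x - κ * ↑k)) - κ * Real.logb 2 r =
          (φ w - κ * (Real.logb 2 r + ↑k)) - FF (φ x - κ * ↑k) := by ring
        rw [e]
        calc |(φ w - κ * (Real.logb 2 r + ↑k)) - FF (φ x - κ * ↑k)| ≤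
            |φ w - κ * (Real.logb 2 r + ↑k)| + |FF (φ x - κ * ↑k)| := abs_sub _ _
          _ ≤ C0 + (U + 1) := add_le_add h1 hFF
          _ = D := by rw [hD]; ring
      have h3 : (φ w - Phi κ φ k x) ^ 2 ≤ 2 * D ^ 2 + 2 * (κ * Real.logb 2 r) ^ 2 := by
        have h4 : (φ w - Phi κ φ k x - κ * Real.logb 2 r) ^ 2 ≤ D ^ 2 := by
          rw [← sq_abs (φ w - Phi κ φ k x - κ * Real.logb 2 r)]
          exact pow_le_pow_left₀ (abs_nonneg _) h2 2
        nlinarith [sq_nonneg (φ w - Phi κ φ k x - 2 * (κ * Real.logb 2 r))]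
      have h5 := logb_sq_le hrpos
      have h6 : 4 / r = 4 * 2 ^ k * (1 / (1 + nm w)) := by
        rw [hr]; field_simp
      have h7 : (κ * Real.logb 2 r) ^ 2 ≤ κ ^ 2 * ((4 * (1 + 3 * b) + 4 / r) * 4) := by
        rw [mul_pow]
        apply mul_le_mul_of_nonneg_left _ (by positivity)
        have : 4 * r ≤ 4 * (1 + 3 * b) := by linarith
        linarith
      rw [h6] at h7
      rw [hE1, hE2]
      nlinarith
    calc ∑ z ∈ Bx b k, (φ (x - z) - Phi κ φ k x) ^ 2 ≤
        ∑ z ∈ Bx b k, (E1 + E2 * 2 ^ k * (1 / (1 + nm (x - z)))) := Finset.sum_le_sum hterm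
      _ = (Bx b k).card * E1 + E2 * 2 ^ k * ∑ z ∈ Bx b k, 1 / (1 + nm (x - z)) := by
          rw [Finset.sum_add_distrib, Finset.sum_const, nsmul_eq_mul, Finset.mul_sum]
      _ ≤ (9 * b ^ 2 * 4 ^ k) * E1 + E2 * 2 ^ k * (8 * (3 * (b * 2 ^ k)) + 1) := by
          apply add_le_add
          · exact mul_le_mul_of_nonneg_right hcard hE1'
          · apply mul_le_mul_of_nonneg_left _ (by positivity)
            have himg : ∑ z ∈ Bx b k, 1 / (1 + nm (x - z)) ≤
                ∑ w ∈ box 2 (3 * (b * 2 ^ k)), 1 / (1 + nm w) := by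
              have hinj : Set.InjOn (fun z => x - z) (Bx b k : Set (Site 2)) := by
                intro z _ z' _ h
                simpa using h
              rw [← Finset.sum_image (f := fun w => 1 / (1 + nm w)) (g := fun z => x - z) hinj]
              apply Finset.sum_le_sum_of_subset_of_nonneg
              · intro w hw
                rw [Finset.mem_image] at hw
                obtain ⟨z, hz, rfl⟩ := hw
                have hnz : nm z ≤ b * 2 ^ k := by
                  have := mem_box_nm.mp hz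
                  push_cast at this
                  exact this
                rw [mem_box_nm]
                push_cast
                linarith [nm_sub_le x z]
              · intro w _ _
                have := nm_nonneg w
                positivity
            refine himg.trans ?_
            have := sum_inv_box (3 * (b * 2 ^ k))
            push_cast at this
            exact this
      _ ≤ (C ^ 2 * (9 * b ^ 2) + E1 * (9 * b ^ 2) + E2 * (25 * b)) * 4 ^ k := by
          have h1 : E2 * 2 ^ k * (8 * (3 * (b * 2 ^ k)) + 1) ≤ E2 * (25 * b) * 4 ^ k := by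
            rw [h4k]
            have : 2 ^ k * (8 * (3 * ((b : ℝ) * 2 ^ k)) + 1) ≤ 25 * b * (2 ^ k * 2 ^ k) := by
              have : (1 : ℝ) ≤ b * 2 ^ k := by nlinarith
              nlinarith
            nlinarith
          have h2 : 0 ≤ C ^ 2 * (9 * (b : ℝ) ^ 2) * 4 ^ k := by positivity
          nlinarith
  · -- outside
    have hterm : ∀ z ∈ Bx b k, (φ (x - z) - Phi κ φ k x) ^ 2 ≤ C ^ 2 := by
      intro z hz
      have := hO k hk z hz x hx
      rw [← sq_abs (φ (x - z) - Phi κ φ k x)]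
      exact pow_le_pow_left₀ (abs_nonneg _) this 2
    have h2 := Finset.sum_le_card_nsmul _ _ _ hterm
    rw [nsmul_eq_mul] at h2
    have h3 := mul_le_mul_of_nonneg_right hcard (sq_nonneg C)
    have h4 : 0 ≤ E1 * (9 * (b : ℝ) ^ 2) * 4 ^ k := by positivity
    have h5 : 0 ≤ E2 * (25 * (b : ℝ)) * 4 ^ k := by positivity
    nlinarith

end Pool.Agent.Helper32.EXC
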